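import Mathlib
import Pool.Agent.Q51.DiscZero

set_option autoImplicit false

/-!
The discriminant exponent `p(n,d)` of the associated-form contravariant equals `1` for all
`n ≥ 2` and `d ≥ 3`.
-/

namespace Pool.Agent.Results.MP_2a8a61_ag.ExponentOne

open MvPolynomial Pool.Agent.Helper56.Disc Q51.DiscDiag

/-- For all `n ≥ 2` and `d ≥ 3` the discriminant of forms of degree `d` in `n` variables exists,
and for every discriminant `Δ` (they differ by scalar factors only) the least natural number `p`
for which `Δ ^ p Φ` extends to a polynomial map on all forms of degree `d` is `1`; here `Φ` is the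
associated form morphism on the nondegenerate forms. -/
theorem result : ∀ n d : ℕ, 2 ≤ n → 3 ≤ d →
    (∃ Δ : MvPolynomial (Mon n d) ℂ, IsDiscriminant Δ) ∧
    ∀ Δ : MvPolynomial (Mon n d) ℂ, IsDiscriminant Δ →
      IsLeast {p : ℕ | PowerExtends Δ p} 1 := by
  intro n d hn hd
  obtain ⟨m, rfl⟩ : ∃ m, n = m + 1 := ⟨n - 1, by omega⟩
  refine ⟨exists_isDiscriminant (by omega) hd, fun Δ hΔ =>
    ⟨powerExtends (by omega) hd Δ hΔ, fun p hp => ?_⟩⟩
  rcases Nat.eq_zero_or_pos p with h0 | h0
  · subst h0
    exact absurd hp (not_powerExtends_zero hd Δ)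
  · exact h0

end Pool.Agent.Results.MP_2a8a61_ag.ExponentOne
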